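import Pool.Agent.H.MP_100021_an.A

namespace Pool.Agent.Results.MP_100021_an.Yes

open Pool.Agent.Lib.helper23.BL Pool.Agent.H.MP_100021_an

theorem result (X : Type) [BanachLattice X] (hX : Projective X) (f : X →L[ℝ] ℝ)
    (hf : OrderCont f) (ha : ∀ a : X, Atom a → f a = 0) : f = 0 := by
  have k : ∀ x : X, 0 ≤ x → f x = 0 := fun x hx => by
    have h1 := main hX hf ha hx
    have h2 := main hX (f := -f) (fun I _ _ _ y h3 h4 => by simpa using (hf I y h3 h4).neg)
      (fun a h => by simp [ha a h]) hx
    exact le_antisymm h1 (by simpa using h2)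
  ext x
  rw [← posPart_sub_negPart x, map_sub, k _ (posPart_nonneg x), k _ (negPart_nonneg x)]
  simp

end Pool.Agent.Results.MP_100021_an.Yes
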